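import Mathlib

set_option autoImplicit false

namespace Pool.Agent.Results.MP_c229cb_an.NoSep

abbrev Cn (n : ℕ) : Type := EuclideanSpace ℂ (Fin n)

def IsClosedCone {n : ℕ} (K : Set (Cn n)) : Prop :=
  IsClosed K ∧ ∀ t : ℝ, 0 < t → ∀ z ∈ K, t • z ∈ K

def zeroSet {n : ℕ} (F : Finset (MvPolynomial (Fin n) ℂ)) : Set (Cn n) :=
  {z | ∀ P ∈ F, MvPolynomial.eval (fun i => z i) P = 0}

def StaysAway {n : ℕ} (A K : Set (Cn n)) (N : ℝ) : Prop :=
  ∃ c : ℝ, 0 < c ∧ ∀ z ∈ A, c ≤ Metric.infDist z K * (1 + ‖z‖) ^ N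

lemma ev (P : MvPolynomial (Fin 3) ℂ) (f : Fin 3 → Polynomial ℂ) (t : ℂ) :
    (MvPolynomial.aeval f P).eval t = MvPolynomial.eval (fun i => (f i).eval t) P := by
  induction P using MvPolynomial.induction_on with
  | C a => simp
  | add p q hp hq => simp [hp, hq]
  | mul_X p i hp => simp [hp]

theorem result : ∃ (K : Set (Cn 3)) (F : Finset (MvPolynomial (Fin 3) ℂ)),
    K.Nonempty ∧ IsClosedCone K ∧ Convex ℝ K ∧
    (zeroSet F).Nonempty ∧ zeroSet F ≠ Set.univ ∧ StaysAway (zeroSet F) K 1 ∧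
    ¬ ∃ P : MvPolynomial (Fin 3) ℂ, P.totalDegree ≠ 0 ∧
      zeroSet F ⊆ zeroSet {P} ∧ zeroSet {P} ∩ K = ∅ := by
  classical
  let K : Set (Cn 3) := {z | |(z 0).im| ≤ (z 0).re ∧ ‖z 1‖ ≤ (z 0).re}
  let F : Finset (MvPolynomial (Fin 3) ℂ) :=
    {MvPolynomial.X 0, MvPolynomial.X 1 * MvPolynomial.X 2 - 1}
  have hF : ∀ z : Cn 3, z ∈ zeroSet F ↔ z 0 = 0 ∧ z 1 * z 2 = 1 := by
    intro z
    simp [zeroSet, F, sub_eq_zero]
  have h0 : (0 : Cn 3) ∈ K := by simp [K]
  refine ⟨K, F, ⟨0, h0⟩, ⟨?_, ?_⟩, ?_, ⟨!₂[0, 1, 1], by simp [hF]⟩, ?_, ⟨1 / 2, by norm_num, ?_⟩, ?_⟩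
  · exact (isClosed_le (by fun_prop) (by fun_prop)).and (isClosed_le (by fun_prop) (by fun_prop))
  · rintro t ht z ⟨a, b⟩
    refine ⟨?_, ?_⟩
    · simp only [PiLp.smul_apply, Complex.smul_im, Complex.smul_re, smul_eq_mul, abs_mul,
        abs_of_pos ht]
      exact mul_le_mul_of_nonneg_left a ht.le
    · simp only [PiLp.smul_apply, Complex.smul_re, smul_eq_mul, norm_smul,
        Real.norm_of_nonneg ht.le]
      exact mul_le_mul_of_nonneg_left b ht.le
  · rintro z ⟨a, b⟩ w ⟨a', b'⟩ s t hs ht -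
    refine ⟨?_, ?_⟩
    · simp only [PiLp.add_apply, PiLp.smul_apply, Complex.add_im, Complex.add_re, Complex.smul_im,
        Complex.smul_re, smul_eq_mul]
      refine (abs_add_le _ _).trans ?_
      rw [abs_mul, abs_mul, abs_of_nonneg hs, abs_of_nonneg ht]
      exact add_le_add (mul_le_mul_of_nonneg_left a hs) (mul_le_mul_of_nonneg_left a' ht)
    · simp only [PiLp.add_apply, PiLp.smul_apply, Complex.add_re, Complex.smul_re, smul_eq_mul]
      refine (norm_add_le _ _).trans ?_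
      rw [norm_smul, norm_smul, Real.norm_of_nonneg hs, Real.norm_of_nonneg ht]
      exact add_le_add (mul_le_mul_of_nonneg_left b hs) (mul_le_mul_of_nonneg_left b' ht)
  · intro h
    have : (0 : Cn 3) ∈ zeroSet F := by rw [h]; trivial
    simp [hF] at this
  · intro z hz
    obtain ⟨a, b⟩ := (hF z).mp hz
    have h1 : ‖z 1‖ / 2 ≤ Metric.infDist z K := by
      refine (Metric.le_infDist ⟨0, h0⟩).mpr ?_
      rintro w ⟨-, c⟩
      have e0 : ‖(z - w) 0‖ ≤ ‖z - w‖ := PiLp.norm_apply_le _ _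
      have e1 : ‖(z - w) 1‖ ≤ ‖z - w‖ := PiLp.norm_apply_le _ _
      rw [PiLp.sub_apply, a, zero_sub, norm_neg] at e0
      rw [PiLp.sub_apply] at e1
      have e2 := Complex.re_le_norm (w 0)
      have e3 := norm_sub_norm_le (z 1) (w 1)
      rw [dist_eq_norm]
      linarith
    have h2 : ‖z 2‖ ≤ ‖z‖ := PiLp.norm_apply_le _ _
    have h3 : ‖z 1‖ * ‖z 2‖ = 1 := by rw [← norm_mul, b, norm_one]
    rw [Real.rpow_one]
    have h4 := norm_nonneg (z 1)
    have h5 := norm_nonneg z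
    nlinarith
  · rintro ⟨P, -, h1, h2⟩
    have hK : ∀ a b c : ℂ, |a.im| ≤ a.re → ‖b‖ ≤ a.re → MvPolynomial.eval ![a, b, c] P ≠ 0 := by
      intro a b c ha hb h
      have : (!₂[a, b, c] : Cn 3) ∈ zeroSet {P} ∩ K := ⟨by simpa [zeroSet] using h, ha, hb⟩
      rw [h2] at this
      exact this
    have e1 : ∀ (s : ℝ) (b c : ℂ), ‖b‖ ≤ s →
        MvPolynomial.eval ![(s : ℂ), b, c] P = MvPolynomial.eval ![(s : ℂ), b, 0] P := by
      intro s b c hs
      set q := MvPolynomial.aeval ![Polynomial.C (s : ℂ), Polynomial.C b, Polynomial.X] P with hq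
      have hv : ∀ t, q.eval t = MvPolynomial.eval ![(s : ℂ), b, t] P := fun t => by
        rw [hq, ev]; congr 2; funext i; fin_cases i <;> simp
      have hd : q.degree = 0 := by
        by_contra hd
        obtain ⟨t, ht⟩ := IsAlgClosed.exists_root q hd
        exact hK s b t (by simpa using (norm_nonneg b).trans hs) (by simpa using hs)
          (by rw [← hv]; exact ht)
      rw [← hv, ← hv, Polynomial.eq_C_of_degree_eq_zero hd]
      simp
    have e2 : ∀ b c : ℂ, MvPolynomial.eval ![0, b, c] P = MvPolynomial.eval ![0, b, 0] P := by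
      intro b c
      set q := MvPolynomial.aeval ![Polynomial.X, Polynomial.C b, Polynomial.C c] P -
        MvPolynomial.aeval ![Polynomial.X, Polynomial.C b, Polynomial.C 0] P with hq
      have hv : ∀ t, q.eval t =
          MvPolynomial.eval ![t, b, c] P - MvPolynomial.eval ![t, b, 0] P := fun t => by
        rw [hq, Polynomial.eval_sub, ev, ev]
        congr 3 <;> funext i <;> fin_cases i <;> simp
      have hz : q = 0 := by
        refine Polynomial.eq_zero_of_infinite_isRoot q ?_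
        refine ((Set.Ici_infinite ‖b‖).image Complex.ofReal_injective.injOn).mono ?_
        rintro _ ⟨s, hs, rfl⟩
        rw [Set.mem_setOf_eq, Polynomial.IsRoot, hv, e1 s b c hs, sub_self]
      have := hv 0
      rw [hz, Polynomial.eval_zero] at this
      exact sub_eq_zero.mp this.symm
    set q := MvPolynomial.aeval ![Polynomial.C 0, Polynomial.X, Polynomial.C (0 : ℂ)] P with hq
    have hv : ∀ t, q.eval t = MvPolynomial.eval ![0, t, 0] P := fun t => by
      rw [hq, ev]; congr 2; funext i; fin_cases i <;> simp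
    have hz : q = 0 := by
      refine Polynomial.eq_zero_of_infinite_isRoot q ?_
      refine (Set.finite_singleton (0 : ℂ)).infinite_compl.mono fun b hb => ?_
      rw [Set.mem_setOf_eq, Polynomial.IsRoot, hv, ← e2 b b⁻¹]
      have := h1 ((hF !₂[0, b, b⁻¹]).mpr ⟨by simp, by simpa using mul_inv_cancel₀ hb⟩)
      simpa [zeroSet] using this
    have := hv 0
    rw [hz, Polynomial.eval_zero] at this
    exact hK 0 0 0 (by simp) (by simp) this.symm

end Pool.Agent.Results.MP_c229cb_an.NoSep
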